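import Pool.Agent.Q49.TL.Alg

/-!
# Project TL, job LINK: conics through two points
-/

set_option autoImplicit false

namespace Q34.TL

open MvPolynomial
open Pool.Agent.Q49.TL (Tsen Linked S_LINK)

section
variable {K ι : Type} [Field K]

/-! ### The reversal -/

theorem refl_mon {a b : ι → Polynomial K} {N : ℕ} (ha : ∀ i, (a i).natDegree ≤ N)
    (hb : ∀ i, b i = (a i).reflect N) (s : ι →₀ ℕ) :
    (s.prod fun i k => a i ^ k).natDegree ≤ Finsupp.weight (1 : ι → ℕ) s * N ∧
      (s.prod fun i k => b i ^ k) =
        (s.prod fun i k => a i ^ k).reflect (Finsupp.weight (1 : ι → ℕ) s * N) := by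
  induction s using Finsupp.induction_linear with
  | zero =>
    rw [Finsupp.prod_zero_index, Finsupp.prod_zero_index, map_zero, zero_mul,
      Polynomial.reflect_one, pow_zero]
    exact ⟨by simp, rfl⟩
  | add s t hs ht =>
    rw [Finsupp.prod_add_index' (h := fun i k => a i ^ k) (fun _ => pow_zero _)
      (fun _ _ _ => pow_add _ _ _), Finsupp.prod_add_index' (h := fun i k => b i ^ k)
      (fun _ => pow_zero _) (fun _ _ _ => pow_add _ _ _), map_add, add_mul,
      Polynomial.reflect_mul _ _ hs.1 ht.1, hs.2, ht.2]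
    exact ⟨Polynomial.natDegree_mul_le.trans (add_le_add hs.1 ht.1), rfl⟩
  | single i n =>
    rw [Finsupp.prod_single_index (h := fun i k => a i ^ k) (pow_zero _),
      Finsupp.prod_single_index (h := fun i k => b i ^ k) (pow_zero _),
      Finsupp.weight_single, Pi.one_apply, smul_eq_mul, mul_one]
    induction n with
    | zero =>
      rw [pow_zero, pow_zero, zero_mul, Polynomial.reflect_one, pow_zero]
      exact ⟨by simp, rfl⟩
    | succ n ih =>
      rw [pow_succ, pow_succ, add_mul, one_mul, Polynomial.reflect_mul _ _ ih.1 (ha i), ← hb, ih.2]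
      exact ⟨Polynomial.natDegree_mul_le.trans (add_le_add ih.1 (ha i)), rfl⟩

theorem refl_aeval {a b : ι → Polynomial K} {N : ℕ} (ha : ∀ i, (a i).natDegree ≤ N)
    (hb : ∀ i, b i = (a i).reflect N) {f : MvPolynomial ι K} {d : ℕ} (hf : f.IsHomogeneous d) :
    (aeval a f).natDegree ≤ d * N ∧ aeval b f = (aeval a f).reflect (d * N) := by
  have hm : ∀ c : ι → Polynomial K, aeval c f =
      ∑ s ∈ f.support, Polynomial.C (coeff s f) * s.prod fun i k => c i ^ k := by
    intro c
    conv_lhs => rw [f.as_sum]
    rw [map_sum]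
    exact Finset.sum_congr rfl fun s _ => aeval_monomial _ _ _
  have hw : ∀ s ∈ f.support, Finsupp.weight (1 : ι → ℕ) s = d := fun s hs =>
    hf (mem_support_iff.1 hs)
  constructor
  · rw [hm]
    refine Polynomial.natDegree_sum_le_of_forall_le _ _ fun s hs => ?_
    refine (Polynomial.natDegree_C_mul_le _ _).trans ?_
    rw [← hw s hs]
    exact (refl_mon ha hb s).1
  · rw [hm, hm]
    ext i
    rw [Polynomial.coeff_reflect, Polynomial.finsetSum_coeff, Polynomial.finsetSum_coeff]
    refine Finset.sum_congr rfl fun s hs => ?_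
    rw [Polynomial.coeff_C_mul, Polynomial.coeff_C_mul, (refl_mon ha hb s).2,
      Polynomial.coeff_reflect, hw s hs]

/-! ### The homogeneous coefficients -/

/-- the polynomials with homogeneous coefficients -/
noncomputable def Hm (K σ : Type) [Field K] :
    Subalgebra K (Polynomial (MvPolynomial σ K)) where
  carrier := {p | ∀ i, (p.coeff i).IsHomogeneous i}
  mul_mem' := fun {p q} hp hq n => by
    rw [Polynomial.coeff_mul]
    refine IsHomogeneous.sum _ _ _ fun ij hij => ?_
    rw [← Finset.HasAntidiagonal.mem_antidiagonal.1 hij]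
    exact (hp _).mul (hq _)
  add_mem' := fun {p q} hp hq n => by
    rw [Polynomial.coeff_add]
    exact (hp n).add (hq n)
  algebraMap_mem' := fun c n => by
    have h1 : algebraMap K (Polynomial (MvPolynomial σ K)) c = Polynomial.C (C c) := rfl
    rw [h1, Polynomial.coeff_C]
    split_ifs with h
    · rw [h]
      exact isHomogeneous_C _ _
    · exact isHomogeneous_zero _ _ _

/-- the value -/
noncomputable def Gv (x y : ι → K) (i : ι) : Polynomial (MvPolynomial (Option ι) K) :=
  algebraMap K _ (x i) + Polynomial.C (X (some i)) * Polynomial.X +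
    algebraMap K _ (y i) * (Polynomial.C (X none) * Polynomial.X) ^ 2

theorem hm_lin (o : Option ι) : (Polynomial.C (X o) * Polynomial.X :
    Polynomial (MvPolynomial (Option ι) K)) ∈ Hm K (Option ι) := by
  intro n
  rw [Polynomial.coeff_C_mul, Polynomial.coeff_X]
  split_ifs with h
  · rw [mul_one, ← h]
    exact isHomogeneous_X _ _
  · rw [mul_zero]
    exact isHomogeneous_zero _ _ _

theorem Gv_mem (x y : ι → K) (i : ι) : Gv x y i ∈ Hm K (Option ι) :=
  (Hm K (Option ι)).add_mem ((Hm K (Option ι)).add_mem ((Hm K (Option ι)).algebraMap_mem _)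
    (hm_lin _)) ((Hm K (Option ι)).mul_mem ((Hm K (Option ι)).algebraMap_mem _)
      ((Hm K (Option ι)).pow_mem (hm_lin _) 2))

theorem aeval_Gv_mem (x y : ι → K) (f : MvPolynomial ι K) :
    aeval (Gv x y) f ∈ Hm K (Option ι) := by
  induction f using MvPolynomial.induction_on with
  | C a =>
    rw [aeval_C]
    exact (Hm K (Option ι)).algebraMap_mem _
  | add p q hp hq =>
    rw [map_add]
    exact (Hm K (Option ι)).add_mem hp hq
  | mul_X p i hp =>
    rw [map_mul, aeval_X]
    exact (Hm K (Option ι)).mul_mem hp (Gv_mem x y i)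

theorem eval_Gv (x y : ι → K) (X0 : Option ι → K) (f : MvPolynomial ι K) (i : ℕ) :
    eval X0 ((aeval (Gv x y) f).coeff i) = (aeval (fun i => Polynomial.C (x i) +
      Polynomial.C (X0 (some i)) * Polynomial.X +
      Polynomial.C (y i) * (Polynomial.C (X0 none) * Polynomial.X) ^ 2) f).coeff i := by
  set ev : Polynomial (MvPolynomial (Option ι) K) →ₐ[K] Polynomial K :=
    Polynomial.mapAlgHom (aeval X0) with hev
  have h1 : ev (aeval (Gv x y) f) = aeval (fun i => Polynomial.C (x i) +
      Polynomial.C (X0 (some i)) * Polynomial.X +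
      Polynomial.C (y i) * (Polynomial.C (X0 none) * Polynomial.X) ^ 2) f := by
    rw [comp_aeval_apply]
    congr 2
    funext i
    unfold Gv
    rw [map_add, map_add, map_mul, map_mul, map_pow, map_mul, AlgHom.commutes, AlgHom.commutes]
    have h2 : ∀ o, ev (Polynomial.C (X o)) = Polynomial.C (X0 o) := by
      intro o
      rw [hev, Polynomial.coe_mapAlgHom, Polynomial.map_C]
      congr 1
      exact aeval_X _ _
    have h3 : ev Polynomial.X = Polynomial.X := by
      rw [hev, Polynomial.coe_mapAlgHom, Polynomial.map_X]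
    rw [h2, h2, h3]
    rfl
  rw [← h1, hev, Polynomial.coe_mapAlgHom, Polynomial.coeff_map]
  rfl

/-! ### The two cases -/

variable {f : MvPolynomial ι K} {d : ℕ} {x y z : ι → K}

theorem coeff_zero_val (c : ι → Polynomial K) (f : MvPolynomial ι K) :
    (aeval c f).coeff 0 = eval (fun i => (c i).coeff 0) f := by
  have h1 : ∀ p : Polynomial K, p.coeff 0 = Polynomial.aeval (0 : K) p := by
    intro p
    rw [Polynomial.coeff_zero_eq_eval_zero, Polynomial.coe_aeval_eq_eval]
  rw [h1, comp_aeval_apply, ← coe_aeval_eq_eval]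
  show aeval _ f = aeval _ f
  congr 2
  funext i
  exact (h1 _).symm

/-- the conic -/
noncomputable def cn (x z y : ι → K) (i : ι) : Polynomial K :=
  Polynomial.C (x i) + Polynomial.C (z i) * Polynomial.X + Polynomial.C (y i) * Polynomial.X ^ 2

theorem cn_deg (x z y : ι → K) (i : ι) : (cn x z y i).natDegree ≤ 2 := by
  unfold cn
  compute_degree

theorem cn_refl (x z y : ι → K) (i : ι) : cn x z y i = (cn y z x i).reflect 2 := by
  unfold cn
  have h1 : Polynomial.C (y i) = Polynomial.C (y i) * (Polynomial.X : Polynomial K) ^ 0 := by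
    rw [pow_zero, mul_one]
  have h2 : Polynomial.C (z i) * Polynomial.X =
      Polynomial.C (z i) * (Polynomial.X : Polynomial K) ^ 1 := by
    rw [pow_one]
  rw [Polynomial.reflect_add, Polynomial.reflect_add, h2, Polynomial.reflect_C_mul_X_pow,
    Polynomial.reflect_C_mul_X_pow, Polynomial.revAt_le (by norm_num : 1 ≤ 2),
    Polynomial.revAt_le (le_refl 2), Polynomial.reflect_C]
  norm_num
  ring

theorem conic (hf : f.IsHomogeneous d) (h1 : ∀ i ≤ d, (aeval (cn x z y) f).coeff i = 0)
    (h2 : ∀ i < d, (aeval (cn y z x) f).coeff i = 0) : aeval (cn x z y) f = 0 := by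
  obtain ⟨h3, h4⟩ := refl_aeval (N := 2) (cn_deg y z x) (cn_refl x z y) hf
  have h5 := (refl_aeval (N := 2) (cn_deg x z y) (cn_refl y z x) hf).1
  ext i
  rw [Polynomial.coeff_zero]
  by_cases hi : i ≤ d
  · exact h1 i hi
  · by_cases hi2 : i ≤ d * 2
    · rw [h4, Polynomial.coeff_reflect, Polynomial.revAt_le hi2]
      exact h2 _ (by omega)
    · exact Polynomial.coeff_eq_zero_of_natDegree_lt (by omega)

/-- the line -/
noncomputable def ln (x z : ι → K) (i : ι) : Polynomial K :=
  Polynomial.C (x i) + Polynomial.C (z i) * Polynomial.X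

theorem ln_deg (x z : ι → K) (i : ι) : (ln x z i).natDegree ≤ 1 := by
  unfold ln
  compute_degree

theorem ln_refl (x z : ι → K) (i : ι) : ln x z i = (ln z x i).reflect 1 := by
  unfold ln
  have h2 : Polynomial.C (x i) * Polynomial.X =
      Polynomial.C (x i) * (Polynomial.X : Polynomial K) ^ 1 := by
    rw [pow_one]
  rw [Polynomial.reflect_add, h2, Polynomial.reflect_C_mul_X_pow,
    Polynomial.revAt_le (le_refl 1), Polynomial.reflect_C]
  norm_num
  ring

theorem line (hf : f.IsHomogeneous d) (h1 : ∀ i ≤ d, (aeval (ln x z) f).coeff i = 0) :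
    aeval (ln x z) f = 0 := by
  have h5 := (refl_aeval (N := 1) (ln_deg x z) (ln_refl z x) hf).1
  ext i
  rw [Polynomial.coeff_zero]
  by_cases hi : i ≤ d
  · exact h1 i hi
  · exact Polynomial.coeff_eq_zero_of_natDegree_lt (by omega)

theorem line_top (hf : f.IsHomogeneous d) (x z : ι → K) :
    (aeval (ln x z) f).coeff d = eval z f := by
  rw [(refl_aeval (N := 1) (ln_deg z x) (ln_refl x z) hf).2, Polynomial.coeff_reflect,
    mul_one, Polynomial.revAt_le le_rfl, Nat.sub_self, coeff_zero_val]
  congr 1
  congr 1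
  funext i
  unfold ln
  simp

theorem two_lines (hf : f.IsHomogeneous d)
    (h1 : ∀ i ≤ d, (aeval (ln x z) f).coeff i = 0)
    (h2 : ∀ i < d, (aeval (ln y z) f).coeff i = 0) :
    aeval (ln x z) f = 0 ∧ aeval (ln z y) f = 0 := by
  have h3 := line hf h1
  refine ⟨h3, ?_⟩
  have h4 : eval z f = 0 := by
    rw [← line_top hf x z]
    exact h1 d le_rfl
  have h5 : aeval (ln y z) f = 0 := by
    refine line hf fun i hi => ?_
    rcases hi.lt_or_eq with h | h
    · exact h2 i h
    · rw [h, line_top hf, h4]
  rw [(refl_aeval (N := 1) (ln_deg y z) (ln_refl z y) hf).2, h5, Polynomial.reflect_zero]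

/-- rescaling -/
theorem scale (f : MvPolynomial ι K) (x y : ι → K) (X0 : Option ι → K) (hs : X0 none ≠ 0) (i : ℕ)
    (h : (aeval (fun i => Polynomial.C (x i) + Polynomial.C (X0 (some i)) * Polynomial.X +
      Polynomial.C (y i) * (Polynomial.C (X0 none) * Polynomial.X) ^ 2) f).coeff i = 0) :
    (aeval (cn x (fun i => (X0 none)⁻¹ * X0 (some i)) y) f).coeff i = 0 := by
  set s := X0 none with hsdef
  set p := aeval (fun i => Polynomial.C (x i) + Polynomial.C (X0 (some i)) * Polynomial.X +
      Polynomial.C (y i) * (Polynomial.C s * Polynomial.X) ^ 2) f with hp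
  have h1 : aeval (cn x (fun i => s⁻¹ * X0 (some i)) y) f =
      Polynomial.aeval (Polynomial.C s⁻¹ * Polynomial.X) p := by
    rw [hp, comp_aeval_apply]
    congr 2
    funext i
    unfold cn
    simp only [map_add, map_mul, map_pow, Polynomial.aeval_X, Polynomial.aeval_C]
    have h2 : ∀ c : K, algebraMap K (Polynomial K) c = Polynomial.C c := fun _ => rfl
    simp only [h2]
    have h3 : Polynomial.C s * Polynomial.C s⁻¹ = 1 := by
      rw [← Polynomial.C_mul, mul_inv_cancel₀ hs, Polynomial.C_1]
    rw [← mul_assoc (Polynomial.C s), h3, one_mul]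
    ring
  rw [h1, ← Polynomial.comp_eq_aeval, Polynomial.comp_C_mul_X_coeff, h, zero_mul]

end

/-- **JOB LINK.** -/
theorem link : S_LINK := by
  intro φ K _ hT ι κ _ _ d f hd hf hcost x y hx hy
  -- the system
  obtain ⟨X0, hX0, hsol⟩ := hT (Option ι) (Σ j : κ, Fin (d j) ⊕ Fin (d j - 1)) (fun _ => 1)
    (fun q => Sum.elim (fun i => i.1 + 1) (fun i => i.1 + 1) q.2)
    (fun q => Sum.elim (fun i => (aeval (Gv x y) (f q.1)).coeff (i.1 + 1))
      (fun i => (aeval (Gv y x) (f q.1)).coeff (i.1 + 1)) q.2)
    (fun _ => one_pos)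
    (by rintro ⟨j, i | i⟩ <;> exact Nat.succ_pos _)
    (by
      rintro ⟨j, i | i⟩
      · exact aeval_Gv_mem x y (f j) (i.1 + 1)
      · exact aeval_Gv_mem y x (f j) (i.1 + 1))
    (by
      rw [Finset.sum_const, Finset.card_univ, Fintype.card_option, smul_eq_mul]
      refine lt_of_eq_of_lt ?_ hcost
      rw [Fintype.sum_sigma]
      refine Finset.sum_congr rfl fun j _ => ?_
      rw [Fintype.sum_sum_type]
      show ∑ i : Fin (d j), φ (i.1 + 1) + ∑ i : Fin (d j - 1), φ (i.1 + 1) = _
      rw [Fin.sum_univ_eq_sum_range (fun i => φ (i + 1)) (d j),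
        Fin.sum_univ_eq_sum_range (fun i => φ (i + 1)) (d j - 1)]
      have h1 : ∑ i ∈ Finset.Ico 1 (d j), φ i = ∑ i ∈ Finset.range (d j - 1), φ (i + 1) := by
        rw [Finset.sum_Ico_eq_sum_range]
        exact Finset.sum_congr rfl fun i _ => by rw [add_comm]
      have h2 : d j = (d j - 1) + 1 := by
        have := hd j
        omega
      rw [h1]
      conv_lhs => rw [h2]
      rw [Finset.sum_range_succ, Nat.add_sub_cancel, ← h2]
      ring)
  have hA : ∀ j, ∀ i < d j, (aeval (fun i => Polynomial.C (x i) +
      Polynomial.C (X0 (some i)) * Polynomial.X +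
      Polynomial.C (y i) * (Polynomial.C (X0 none) * Polynomial.X) ^ 2) (f j)).coeff (i + 1) = 0 := by
    intro j i hi
    rw [← eval_Gv]
    exact hsol ⟨j, Sum.inl ⟨i, hi⟩⟩
  have hB : ∀ j, ∀ i < d j - 1, (aeval (fun i => Polynomial.C (y i) +
      Polynomial.C (X0 (some i)) * Polynomial.X +
      Polynomial.C (x i) * (Polynomial.C (X0 none) * Polynomial.X) ^ 2) (f j)).coeff (i + 1) = 0 := by
    intro j i hi
    rw [← eval_Gv]
    exact hsol ⟨j, Sum.inr ⟨i, hi⟩⟩
  by_cases hs : X0 none = 0
  · right
    refine ⟨fun i => X0 (some i), ?_, ?_⟩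
    · intro h0
      apply hX0
      funext o
      rcases o with _ | i
      · exact hs
      · exact congrFun h0 i
    · have e : ∀ x y : ι → K, (fun i => Polynomial.C (x i) +
          Polynomial.C (X0 (some i)) * Polynomial.X +
          Polynomial.C (y i) * (Polynomial.C (X0 none) * Polynomial.X) ^ 2) =
          ln x (fun i => X0 (some i)) := by
        intro x y
        funext i
        unfold ln
        rw [hs, Polynomial.C_0, zero_mul, zero_pow two_ne_zero, mul_zero, add_zero]
      have key : ∀ j, aeval (ln x (fun i => X0 (some i))) (f j) = 0 ∧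
          aeval (ln (fun i => X0 (some i)) y) (f j) = 0 := by
        intro j
        refine two_lines (hf j) (fun i hi => ?_) (fun i hi => ?_)
        · rcases i with _ | i
          · rw [coeff_zero_val, ← hx j]
            congr 2
            funext i
            unfold ln
            simp
          · rw [← e x y]
            exact hA j i (by omega)
        · rcases i with _ | i
          · rw [coeff_zero_val, ← hy j]
            congr 2
            funext i
            unfold ln
            simp
          · rw [← e y x]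
            exact hB j i (by omega)
      exact ⟨fun j => (key j).1, fun j => (key j).2⟩
  · left
    refine ⟨fun i => (X0 none)⁻¹ * X0 (some i), fun j => ?_⟩
    refine conic (hf j) (fun i hi => ?_) (fun i hi => ?_)
    · rcases i with _ | i
      · rw [coeff_zero_val, ← hx j]
        congr 2
        funext i
        unfold cn
        simp
      · exact scale (f j) x y X0 hs (i + 1) (hA j i (by omega))
    · rcases i with _ | i
      · rw [coeff_zero_val, ← hy j]
        congr 2
        funext i
        unfold cn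
        simp
      · exact scale (f j) y x X0 hs (i + 1) (hB j i (by omega))

end Q34.TL
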