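import Pool.Agent.Q49.TL.Pad
import Pool.Agent.Q34.TL.Link

/-!
# Project TL, job BEZ: one form of degree prime to `ℓ`
-/

set_option autoImplicit false

namespace Q34.TL

open MvPolynomial
open Pool.Agent.Q49.TL (S_BEZ)

theorem exists_factor {K : Type} [Field K] (ℓ : ℕ) (g : Polynomial K) (hg : g ≠ 0)
    (hd : ¬ ℓ ∣ g.natDegree) : ∃ q : Polynomial K, Irreducible q ∧ q ∣ g ∧ ¬ ℓ ∣ q.natDegree := by
  induction g using WfDvdMonoid.induction_on_irreducible with
  | zero => exact absurd rfl hg
  | unit u hu =>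
    exfalso
    rw [Polynomial.natDegree_eq_zero_of_isUnit hu] at hd
    exact hd (dvd_zero _)
  | mul a i ha hi ih =>
    by_cases h : ℓ ∣ i.natDegree
    · rw [Polynomial.natDegree_mul hi.ne_zero ha] at hd
      obtain ⟨q, h1, h2, h3⟩ := ih ha (fun h' => hd (dvd_add h h'))
      exact ⟨q, h1, h2.mul_left i, h3⟩
    · exact ⟨i, hi, dvd_mul_right _ _, h⟩

/-- **JOB BEZ.** -/
theorem bez : S_BEZ := by
  intro K _ ℓ hℓ n d f hn hf hd
  obtain ⟨m, rfl⟩ : ∃ m, n = m + 1 := ⟨n - 1, by omega⟩
  set e0 : Fin (m + 1 + 1) → K := Pi.single 0 1 with he0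
  set e1 : Fin (m + 1 + 1) → K := Pi.single 1 1 with he1
  have h01 : e0 1 = 0 := by
    rw [he0, Pi.single_apply, if_neg]
    exact Fin.zero_ne_one.symm
  have h11 : e1 1 = 1 := by
    rw [he1, Pi.single_eq_same]
  by_cases h0 : eval e0 f = 0
  · refine ⟨K, inferInstance, inferInstance, inferInstance, ?_, e0, ?_, ?_⟩
    · rw [Module.finrank_self]
      exact fun h => hℓ.out.one_lt.ne' (Nat.dvd_one.1 h)
    · intro h
      have := congrFun h 0
      rw [he0, Pi.single_eq_same] at this
      exact one_ne_zero this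
    · exact h0
  · set g : Polynomial K := aeval (ln e1 e0) f with hg
    have hgd : g.coeff d ≠ 0 := by
      rw [hg, line_top hf]
      exact h0
    have hdeg : g.natDegree = d := by
      refine le_antisymm ?_ (Polynomial.le_natDegree_of_ne_zero hgd)
      have := (refl_aeval (N := 1) (ln_deg e1 e0) (ln_refl e0 e1) hf).1
      rwa [mul_one] at this
    have hg0 : g ≠ 0 := by
      intro h
      rw [h, Polynomial.coeff_zero] at hgd
      exact hgd rfl
    obtain ⟨q, hq, hqg, hql⟩ := exists_factor ℓ g hg0 (by rw [hdeg]; exact hd)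
    have : Fact (Irreducible q) := ⟨hq⟩
    refine ⟨AdjoinRoot q, inferInstance, inferInstance,
      (AdjoinRoot.powerBasis hq.ne_zero).finite, ?_,
      fun i => algebraMap K (AdjoinRoot q) (e1 i) + algebraMap K (AdjoinRoot q) (e0 i) *
        AdjoinRoot.root q, ?_, ?_⟩
    · rw [(AdjoinRoot.powerBasis hq.ne_zero).finrank, AdjoinRoot.powerBasis_dim]
      exact hql
    · intro h
      have := congrFun h 1
      simp only [h11, h01, map_one, map_zero, zero_mul, add_zero, Pi.zero_apply] at this
      exact one_ne_zero this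
    · have h1 : aeval (fun i => algebraMap K (AdjoinRoot q) (e1 i) +
          algebraMap K (AdjoinRoot q) (e0 i) * AdjoinRoot.root q) f =
          Polynomial.aeval (AdjoinRoot.root q) g := by
        rw [hg, comp_aeval_apply]
        congr 2
        funext i
        unfold ln
        rw [map_add, map_mul, Polynomial.aeval_C, Polynomial.aeval_C, Polynomial.aeval_X]
      rw [h1]
      obtain ⟨r, hr⟩ := hqg
      rw [hr, map_mul, AdjoinRoot.aeval_eq, AdjoinRoot.mk_self, zero_mul]

end Q34.TL
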