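import Pool.Agent.Q49.TL.Pad

/-!
# Project TL, job GWI: the Witt components of a form are forms
-/

set_option autoImplicit false

namespace Q34.TL

open MvPolynomial
open Pool.Agent.Q49.TL (S_GWI tau)

/-! ### Multiplication by a Teichmüller representative -/

section
variable (p : ℕ) [hp : Fact p.Prime]

theorem teich_inv {R : Type} [CommRing R] [Invertible (p : R)] (a : R) (x : WittVector p R) :
    WittVector.teichmuller p a * x = WittVector.mk p fun n => a ^ p ^ n * x.coeff n := by
  apply (WittVector.ghostMap.bijective_of_invertible p R).1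
  funext n
  rw [map_mul, Pi.mul_apply, WittVector.ghostMap_apply, WittVector.ghostMap_apply,
    WittVector.ghostMap_apply, WittVector.ghostComponent_teichmuller,
    WittVector.ghostComponent_apply, WittVector.ghostComponent_apply, aeval_wittPolynomial,
    aeval_wittPolynomial, Finset.mul_sum]
  refine Finset.sum_congr rfl fun i hi => ?_
  rw [WittVector.coeff_mk, mul_pow, ← pow_mul, ← pow_add]
  have h1 : i + (n - i) = n := by
    have := Finset.mem_range.1 hi
    omega
  rw [h1]
  ring

theorem teich_int (a : MvPolynomial (Option ℕ) ℤ) (x : WittVector p (MvPolynomial (Option ℕ) ℤ)) :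
    WittVector.teichmuller p a * x = WittVector.mk p fun n => a ^ p ^ n * x.coeff n := by
  have hp0 : (p : ℚ) ≠ 0 := by
    have := hp.out.pos
    positivity
  let φ : MvPolynomial (Option ℕ) ℤ →+* MvPolynomial (Option ℕ) ℚ :=
    MvPolynomial.map (Int.castRingHom ℚ)
  have hφ : Function.Injective φ :=
    MvPolynomial.map_injective _ (RingHom.injective_int _)
  have hinv : Invertible (p : MvPolynomial (Option ℕ) ℚ) := by
    refine ⟨C ((p : ℚ)⁻¹), ?_, ?_⟩
    · rw [← map_natCast (C : ℚ →+* MvPolynomial (Option ℕ) ℚ) p, ← C_mul, inv_mul_cancel₀ hp0, C_1]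
    · rw [← map_natCast (C : ℚ →+* MvPolynomial (Option ℕ) ℚ) p, ← C_mul, mul_inv_cancel₀ hp0, C_1]
  apply WittVector.map_injective φ hφ
  rw [map_mul, WittVector.map_teichmuller, teich_inv]
  ext n
  rw [WittVector.coeff_mk, WittVector.map_coeff, WittVector.map_coeff, WittVector.coeff_mk,
    map_mul, map_pow]

theorem teich_coeff {R : Type} [CommRing R] (a : R) (x : WittVector p R) (n : ℕ) :
    (WittVector.teichmuller p a * x).coeff n = a ^ p ^ n * x.coeff n := by
  let φ : MvPolynomial (Option ℕ) ℤ →+* R :=
    eval₂Hom (Int.castRingHom R) fun o => Option.elim o a x.coeff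
  have h1 : WittVector.teichmuller p a * x = WittVector.map φ
      (WittVector.teichmuller p (X none) * WittVector.mk p fun n => X (some n)) := by
    rw [map_mul, WittVector.map_teichmuller]
    have e1 : φ (X none) = a := eval₂_X (Int.castRingHom R) (fun o => Option.elim o a x.coeff) none
    have e2 : x = WittVector.map φ (WittVector.mk p fun n => X (some n)) := by
      refine WittVector.ext fun n => ?_
      rw [WittVector.map_coeff, WittVector.coeff_mk]
      exact (eval₂_X (Int.castRingHom R) (fun o => Option.elim o a x.coeff) (some n)).symm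
    rw [e1, ← e2]
  rw [h1, teich_int, WittVector.map_coeff, WittVector.coeff_mk, WittVector.coeff_mk, map_mul,
    map_pow]
  have e1 : φ (X none) = a := eval₂_X (Int.castRingHom R) (fun o => Option.elim o a x.coeff) none
  have e2 : φ (X (some n)) = x.coeff n :=
    eval₂_X (Int.castRingHom R) (fun o => Option.elim o a x.coeff) (some n)
  rw [e1, e2]

end

/-! ### Scaling of weighted homogeneous polynomials -/

theorem wh_scale {A B σ : Type} [CommRing A] [CommRing B] (φ : A →+* B) {w : σ → ℕ} {e : ℕ}
    {f : MvPolynomial σ A} (hf : IsWeightedHomogeneous w f e) (τ : B) (y : σ → B) :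
    eval₂ φ (fun i => τ ^ w i * y i) f = τ ^ e * eval₂ φ y f := by
  rw [eval₂_eq, eval₂_eq, Finset.mul_sum]
  refine Finset.sum_congr rfl fun s hs => ?_
  have h1 : Finsupp.weight w s = e := hf (mem_support_iff.1 hs)
  have h2 : ∏ i ∈ s.support, (τ ^ w i * y i) ^ s i = τ ^ e * ∏ i ∈ s.support, y i ^ s i := by
    rw [← h1, Finsupp.weight_apply, Finsupp.sum, ← Finset.prod_pow_eq_pow_sum,
      ← Finset.prod_mul_distrib]
    refine Finset.prod_congr rfl fun i _ => ?_
    rw [mul_pow, ← pow_mul, smul_eq_mul, mul_comm (w i)]
  rw [h2]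
  ring

section
variable {k σ : Type} [Field k] (W : σ → ℕ)

/-- the grading -/
noncomputable def scl : MvPolynomial σ k →ₐ[k] Polynomial (MvPolynomial σ k) :=
  aeval fun i => Polynomial.C (X i) * Polynomial.X ^ W i

theorem scl_monomial (s : σ →₀ ℕ) (c : k) : scl W (monomial s c) =
    Polynomial.C (monomial s c) * Polynomial.X ^ (Finsupp.weight W s) := by
  unfold scl
  rw [aeval_monomial, Finsupp.prod]
  have h1 : ∀ i ∈ s.support, (Polynomial.C (X i : MvPolynomial σ k) * Polynomial.X ^ W i) ^ s i =
      Polynomial.C (X i ^ s i) * Polynomial.X ^ (s i * W i) := by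
    intro i _
    rw [mul_pow, ← pow_mul, map_pow, mul_comm (W i)]
  rw [Finset.prod_congr rfl h1, Finset.prod_mul_distrib, Finset.prod_pow_eq_pow_sum]
  have h2 : Finsupp.weight W s = ∑ i ∈ s.support, s i * W i := by
    rw [Finsupp.weight_apply, Finsupp.sum]
    exact Finset.sum_congr rfl fun i _ => smul_eq_mul _ _
  rw [h2, ← mul_assoc]
  congr 1
  rw [monomial_eq, map_mul, Finsupp.prod, map_prod]
  congr 1

theorem scl_coeff (f : MvPolynomial σ k) (m : ℕ) :
    (scl W f).coeff m = weightedHomogeneousComponent W m f := by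
  induction f using MvPolynomial.induction_on' with
  | monomial s c =>
    rw [scl_monomial, Polynomial.coeff_C_mul, Polynomial.coeff_X_pow,
      weightedHomogeneousComponent_of_mem (n := Finsupp.weight W s)
        (isWeightedHomogeneous_monomial W s c rfl)]
    split_ifs with h
    · rw [mul_one]
    · rw [mul_zero]
  | add p q hp hq =>
    rw [map_add, Polynomial.coeff_add, hp, hq, map_add]

theorem wh_of_scl {f : MvPolynomial σ k} {M : ℕ}
    (h : scl W f = Polynomial.X ^ M * Polynomial.C f) : IsWeightedHomogeneous W f M := by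
  intro s hs
  by_contra hne
  have h1 : weightedHomogeneousComponent W (Finsupp.weight W s) f = 0 := by
    rw [← scl_coeff, h, Polynomial.coeff_mul_C, Polynomial.coeff_X_pow, if_neg hne, zero_mul]
  have h2 := congrArg (coeff s) h1
  rw [coeff_weightedHomogeneousComponent, if_pos rfl, coeff_zero] at h2
  exact hs h2

end

/-- **JOB GWI.** -/
theorem gwi : S_GWI := by
  intro p _ k _ _ ι _ w e f hf
  set R := MvPolynomial (ι × ℕ) k with hR
  set W : ι × ℕ → ℕ := fun s => w s.1 * p ^ s.2 with hW
  let U : ι → WittVector p R := fun i => WittVector.mk p fun s => X (i, s)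
  let T0 : ℤ_[p] →+* WittVector p R := (WittVector.map (C : k →+* R)).comp (tau p k)
  refine ⟨fun m => (eval₂ T0 U f).coeff m, fun m => ?_, fun x m => ?_⟩
  · apply wh_of_scl
    let inc : R →+* Polynomial R := Polynomial.C
    let sc : R →+* Polynomial R := (scl W : MvPolynomial (ι × ℕ) k →ₐ[k] _).toRingHom
    have h1 : (WittVector.map sc).comp T0 = (WittVector.map inc).comp T0 := by
      refine RingHom.ext fun a => WittVector.ext fun n => ?_
      show sc ((T0 a).coeff n) = inc ((T0 a).coeff n)
      have h2 : (T0 a).coeff n = C ((tau p k a).coeff n) := rfl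
      rw [h2]
      exact (scl W : MvPolynomial (ι × ℕ) k →ₐ[k] _).commutes _
    have h2 : ∀ i, WittVector.map sc (U i) =
        (WittVector.teichmuller p (Polynomial.X : Polynomial R)) ^ w i *
          WittVector.map inc (U i) := by
      intro i
      rw [← map_pow]
      refine WittVector.ext fun n => ?_
      rw [teich_coeff, WittVector.map_coeff, WittVector.map_coeff, WittVector.coeff_mk, ← pow_mul,
        mul_comm]
      show (scl W) (X (i, n)) = _
      unfold scl
      rw [aeval_X]
    show (scl W) ((eval₂ T0 U f).coeff m) = Polynomial.X ^ (e * p ^ m) *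
      Polynomial.C ((eval₂ T0 U f).coeff m)
    have h3 : (scl W) ((eval₂ T0 U f).coeff m) =
        (WittVector.map sc (eval₂ T0 U f)).coeff m := rfl
    rw [h3, eval₂_comp_left, h1]
    have h4 : (WittVector.map sc) ∘ U = fun i =>
        (WittVector.teichmuller p (Polynomial.X : Polynomial R)) ^ w i *
          WittVector.map inc (U i) := funext h2
    rw [h4, wh_scale _ hf, ← map_pow, teich_coeff, ← pow_mul]
    congr 1
    have h5 : eval₂ ((WittVector.map inc).comp T0) (fun i => WittVector.map inc (U i)) f =
        WittVector.map inc (eval₂ T0 U f) := (eval₂_comp_left _ _ _ _).symm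
    rw [h5]
    rfl
  · let ev : R →+* k := eval fun s : ι × ℕ => (x s.1).coeff s.2
    show _ = ev ((eval₂ T0 U f).coeff m)
    have h1 : ev ((eval₂ T0 U f).coeff m) = (WittVector.map ev (eval₂ T0 U f)).coeff m := rfl
    rw [h1, eval₂_comp_left]
    congr 2
    · refine RingHom.ext fun a => WittVector.ext fun n => ?_
      show (tau p k a).coeff n = ev (C ((tau p k a).coeff n))
      exact (eval_C _).symm
    · funext i
      refine WittVector.ext fun n => ?_
      show (x i).coeff n = eval (fun s : ι × ℕ => (x s.1).coeff s.2) (X (i, n))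
      rw [eval_X]

end Q34.TL
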