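import Pool.Agent.Q49.TL.Pad

/-!
# Project TL, job HEN: the lemma of Hensel and Newton
-/

set_option autoImplicit false

namespace Q34.TL

open Polynomial
open Pool.Agent.Q49.TL (S_HEN)

/-- a polynomial with one zero which is a unit -/
theorem hen_unit {B : Type} [CommRing B] [HenselianLocalRing B] (K : Polynomial B) {ε : B}
    (hε : ε ∈ IsLocalRing.maximalIdeal B) : ∃ u : B, 1 + u + ε * u ^ 2 * K.eval u = 0 := by
  set m := K.natDegree with hm
  set W : Polynomial B := X ^ (m + 1) + C ε * K.reflect m with hW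
  have hWd : W.degree < ((m + 2 : ℕ) : WithBot ℕ) := by
    rw [hW]
    refine (degree_add_le _ _).trans_lt (max_lt ?_ ?_)
    · refine (degree_X_pow_le _).trans_lt ?_
      exact_mod_cast Nat.lt_succ_self _
    · refine (degree_le_natDegree).trans_lt ?_
      have h1 : (C ε * K.reflect m).natDegree ≤ m := by
        refine (natDegree_C_mul_le _ _).trans ?_
        refine natDegree_reflect_le.trans ?_
        rw [← hm, max_self]
      exact_mod_cast lt_of_le_of_lt h1 (by omega)
  set V : Polynomial B := X ^ (m + 2) + W with hV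
  have hmon : V.Monic := monic_X_pow_add hWd
  have e1 : V.eval (-1) = ε * (K.reflect m).eval (-1) := by
    rw [hV, hW]
    simp only [eval_add, eval_mul, eval_pow, eval_X, eval_C]
    rw [pow_succ (-1 : B) (m + 1)]
    ring
  have e2 : V.derivative.eval (-1) = (-1) ^ (m + 1) + ε * (K.reflect m).derivative.eval (-1) := by
    rw [hV, hW]
    simp only [derivative_add, derivative_X_pow, derivative_mul, derivative_C, zero_mul, zero_add,
      eval_add, eval_mul, eval_pow, eval_X, eval_C, Nat.add_sub_cancel]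
    have h1 : m + 2 - 1 = m + 1 := by omega
    rw [h1]
    push_cast
    rw [pow_succ (-1 : B) m]
    ring
  obtain ⟨v, hv, hv1⟩ := HenselianLocalRing.is_henselian V hmon (-1) (by
    rw [e1]
    exact Ideal.mul_mem_right _ _ hε) (by
    rw [e2]
    by_contra hcon
    have h1 := (IsLocalRing.mem_maximalIdeal _).2 hcon
    have h2 : ((-1 : B)) ^ (m + 1) ∈ IsLocalRing.maximalIdeal B := by
      have h3 := Ideal.sub_mem _ h1 (Ideal.mul_mem_right ((K.reflect m).derivative.eval (-1)) _ hε)
      rwa [add_sub_cancel_right] at h3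
    have h3 : IsUnit ((-1 : B) ^ (m + 1)) := (isUnit_one.neg).pow _
    exact (IsLocalRing.mem_maximalIdeal _).1 h2 h3)
  have hvu : IsUnit v := by
    by_contra hcon
    have h1 := (IsLocalRing.mem_maximalIdeal v).2 hcon
    have h2 := Ideal.sub_mem _ h1 hv1
    have h3 : v - (v - -1) = -1 := by ring
    rw [h3] at h2
    exact (IsLocalRing.mem_maximalIdeal _).1 h2 isUnit_one.neg
  obtain ⟨v', rfl⟩ := hvu
  refine ⟨((v'⁻¹ : Bˣ) : B), ?_⟩
  have hinv : Invertible ((v'⁻¹ : Bˣ) : B) := ⟨(v' : B), Units.mul_inv v', Units.inv_mul v'⟩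
  have h4 := eval₂_reflect_mul_pow (RingHom.id B) ((v'⁻¹ : Bˣ) : B) m K (by rw [← hm])
  have h5 : ⅟((v'⁻¹ : Bˣ) : B) = (v' : B) :=
    invOf_eq_left_inv (Units.mul_inv v')
  rw [h5] at h4
  have h6 : (K.reflect m).eval (v' : B) * ((v'⁻¹ : Bˣ) : B) ^ m = K.eval ((v'⁻¹ : Bˣ) : B) := h4
  rw [← h6]
  have h7 : V.eval (v' : B) = 0 := hv
  rw [hV, hW] at h7
  simp only [eval_add, eval_mul, eval_pow, eval_X, eval_C] at h7
  have h8 : (v' : B) * ((v'⁻¹ : Bˣ) : B) = 1 := Units.mul_inv v'
  set u : B := ((v'⁻¹ : Bˣ) : B) with hu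
  set v : B := (v' : B) with hvdef
  set r : B := (K.reflect m).eval v with hr
  have h9 : v ^ m * u ^ m = 1 := by rw [← mul_pow, h8, one_pow]
  have h10 : (v ^ (m + 2) + (v ^ (m + 1) + ε * r)) * u ^ (m + 2) = 0 := by rw [h7, zero_mul]
  have h11 : (v ^ (m + 2) + (v ^ (m + 1) + ε * r)) * u ^ (m + 2) =
      (v ^ m * u ^ m) * (v * u) ^ 2 + (v ^ m * u ^ m) * (v * u) * u + ε * u ^ 2 * (r * u ^ m) := by
    ring
  rw [h11, h9, h8] at h10
  rw [← h10]
  ring

/-- **JOB HEN.** -/
theorem hen : S_HEN := by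
  intro B _ _ g b ε hε hg
  obtain ⟨K, hK⟩ := binomExpansion (g.map (C : B →+* Polynomial B)) (C b)
    (X * C (g.derivative.eval b * ε))
  obtain ⟨u, hu⟩ := hen_unit K hε
  refine ⟨u, ?_⟩
  have h1 := congrArg (eval u) hK
  have h2 : ∀ q : Polynomial B, ∀ y : Polynomial B,
      eval u (eval y (q.map (C : B →+* Polynomial B))) = eval (eval u y) q := by
    intro q y
    rw [eval_map, ← coe_evalRingHom, hom_eval₂]
    have h3 : (evalRingHom u).comp (C : B →+* Polynomial B) = RingHom.id B := by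
      ext a
      simp
    rw [h3]
    rfl
  rw [h2] at h1
  simp only [eval_add, eval_mul, eval_pow, eval_X, eval_C, derivative_map, h2] at h1
  have h3 : b + u * (g.derivative.eval b * ε) = b + g.derivative.eval b * ε * u := by ring
  rw [h3] at h1
  rw [h1, hg]
  linear_combination (g.derivative.eval b ^ 2 * ε) * hu

end Q34.TL
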