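import Pool.Agent.Q49.TL.Alg

/-!
# Project TL, job PT: homogeneous primes without points have new constants
-/

set_option autoImplicit false

namespace Q34.TL

open MvPolynomial
open Pool.Agent.Q49.TL (Gr PAC S_PT)

section
variable {κ : Type} [Field κ] {ι : Type} (w : ι → ℕ) (P : Ideal (MvPolynomial ι κ))

/-- the grading as a ring homomorphism -/
noncomputable def gr : MvPolynomial ι κ →ₐ[κ] Polynomial (MvPolynomial ι κ ⧸ P) :=
  aeval fun i => Polynomial.C (Ideal.Quotient.mk P (X i)) * Polynomial.X ^ w i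

theorem gr_monomial (s : ι →₀ ℕ) (c : κ) : gr w P (monomial s c) =
    Polynomial.C (Ideal.Quotient.mk P (monomial s c)) * Polynomial.X ^ (Finsupp.weight w s) := by
  unfold gr
  rw [aeval_monomial, Finsupp.prod]
  have h1 : ∀ i ∈ s.support, (Polynomial.C (Ideal.Quotient.mk P (X i)) * Polynomial.X ^ w i) ^ s i =
      Polynomial.C (Ideal.Quotient.mk P (X i ^ s i)) * Polynomial.X ^ (s i * w i) := by
    intro i _
    refine (mul_pow (Polynomial.C (Ideal.Quotient.mk P (X i))) (Polynomial.X ^ w i)
      (s i)).trans ?_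
    rw [← pow_mul, map_pow, map_pow, mul_comm (w i)]
  rw [Finset.prod_congr rfl h1, Finset.prod_mul_distrib, Finset.prod_pow_eq_pow_sum]
  have h2 : Finsupp.weight w s = ∑ i ∈ s.support, s i * w i := by
    rw [Finsupp.weight_apply, Finsupp.sum]
    exact Finset.sum_congr rfl fun i _ => smul_eq_mul _ _
  rw [h2, ← mul_assoc]
  congr 1
  rw [monomial_eq, map_mul, map_mul, Finsupp.prod, map_prod, map_prod]
  congr 1

theorem gr_coeff (f : MvPolynomial ι κ) (m : ℕ) :
    (gr w P f).coeff m = Ideal.Quotient.mk P (weightedHomogeneousComponent w m f) := by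
  induction f using MvPolynomial.induction_on' with
  | monomial s c =>
    rw [gr_monomial, Polynomial.coeff_C_mul, Polynomial.coeff_X_pow,
      weightedHomogeneousComponent_of_mem (n := Finsupp.weight w s)
        (isWeightedHomogeneous_monomial w s c rfl)]
    split_ifs with h
    · rw [mul_one]
    · rw [mul_zero, map_zero]
  | add p q hp hq =>
    rw [map_add, Polynomial.coeff_add, hp, hq, map_add, map_add]

theorem gr_zero (hG : Gr w P) {f : MvPolynomial ι κ} (hf : f ∈ P) : gr w P f = 0 := by
  ext m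
  rw [gr_coeff, Polynomial.coeff_zero]
  exact Ideal.Quotient.eq_zero_iff_mem.2 (hG f hf m)

theorem mem_of_gr {f : MvPolynomial ι κ} (hf : gr w P f = 0) : f ∈ P := by
  have h1 : ∀ m, weightedHomogeneousComponent w m f ∈ P := by
    intro m
    rw [← Ideal.Quotient.eq_zero_iff_mem, ← gr_coeff, hf, Polynomial.coeff_zero]
  rw [← sum_weightedHomogeneousComponent w f,
    finsum_eq_sum _ (weightedHomogeneousComponent_finsupp f)]
  exact P.sum_mem fun m _ => h1 m

/-- the leading forms -/
theorem leading (hP : P.IsPrime) (hG : Gr w P) {g : Polynomial κ} (hg : g.Monic)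
    (hg0 : g.natDegree ≠ 0) {u v : MvPolynomial ι κ} (hv : v ∉ P)
    (huv : ∑ k ∈ Finset.range (g.natDegree + 1), C (g.coeff k) * u ^ k *
      v ^ (g.natDegree - k) ∈ P) :
    ∃ (d : ℕ) (u v : MvPolynomial ι κ), IsWeightedHomogeneous w u d ∧
      IsWeightedHomogeneous w v d ∧ v ∉ P ∧
      ∑ k ∈ Finset.range (g.natDegree + 1), C (g.coeff k) * u ^ k * v ^ (g.natDegree - k) ∈ P := by
  set n := g.natDegree with hn
  set U := gr w P u with hU
  set V := gr w P v with hV
  have hV0 : V ≠ 0 := fun h => hv (mem_of_gr w P h)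
  have hrel : ∑ k ∈ Finset.range (n + 1), Polynomial.C (Ideal.Quotient.mk P (C (g.coeff k))) *
      U ^ k * V ^ (n - k) = 0 := by
    have h1 := gr_zero w P hG huv
    rw [map_sum] at h1
    rw [← h1]
    refine Finset.sum_congr rfl fun k _ => ?_
    rw [map_mul, map_mul, map_pow, map_pow]
    congr 2
    have h2 := gr_monomial w P (0 : ι →₀ ℕ) (g.coeff k)
    rw [map_zero, pow_zero, mul_one] at h2
    exact h2.symm
  set d := max U.natDegree V.natDegree with hd
  have hUd : U.natDegree ≤ d := le_max_left _ _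
  have hVd : V.natDegree ≤ d := le_max_right _ _
  -- the top coefficient
  have htop : ∑ k ∈ Finset.range (n + 1), Ideal.Quotient.mk P (C (g.coeff k)) *
      U.coeff d ^ k * V.coeff d ^ (n - k) = 0 := by
    have h1 := congrArg (fun p => Polynomial.coeff p (n * d)) hrel
    rw [Polynomial.coeff_zero, Polynomial.finsetSum_coeff] at h1
    rw [← h1]
    refine Finset.sum_congr rfl fun k hk => ?_
    have hk' : k ≤ n := by
      have := Finset.mem_range.1 hk
      omega
    have h2 : n * d = k * d + (n - k) * d := by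
      rw [← add_mul]
      congr 1
      omega
    have h3 : (Polynomial.C (Ideal.Quotient.mk P (C (g.coeff k))) * U ^ k * V ^ (n - k)).coeff
        (n * d) = Ideal.Quotient.mk P (C (g.coeff k)) * (U ^ k * V ^ (n - k)).coeff (n * d) := by
      rw [mul_assoc]
      exact Polynomial.coeff_C_mul _
    rw [h3, h2, Polynomial.coeff_mul_add_eq_of_natDegree_le
      (Polynomial.natDegree_pow_le_of_le k hUd) (Polynomial.natDegree_pow_le_of_le (n - k) hVd),
      Polynomial.coeff_pow_of_natDegree_le hUd, Polynomial.coeff_pow_of_natDegree_le hVd]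
    exact mul_assoc _ _ _
  have hVc : V.coeff d ≠ 0 := by
    intro h0
    have hUc : U.coeff d = 0 := by
      rw [Finset.sum_range_succ, Finset.sum_eq_zero] at htop
      · rw [Nat.sub_self, pow_zero, mul_one, zero_add, hn, Polynomial.Monic.coeff_natDegree hg,
          C_1, map_one, one_mul] at htop
        exact pow_eq_zero_iff hg0 |>.1 htop
      · intro k hk
        rw [h0, zero_pow, mul_zero]
        have := Finset.mem_range.1 hk
        omega
    rcases le_total U.natDegree V.natDegree with h | h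
    · rw [hd, max_eq_right h] at h0
      exact hV0 (Polynomial.leadingCoeff_eq_zero.1 h0)
    · rw [hd, max_eq_left h] at hUc
      have hU0 := Polynomial.leadingCoeff_eq_zero.1 hUc
      rw [hU0, Polynomial.natDegree_zero] at h
      rw [hd, hU0, Polynomial.natDegree_zero, max_eq_right (Nat.zero_le _)] at h0
      exact hV0 (Polynomial.leadingCoeff_eq_zero.1 h0)
  refine ⟨d, weightedHomogeneousComponent w d u, weightedHomogeneousComponent w d v,
    weightedHomogeneousComponent_isWeightedHomogeneous _ _,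
    weightedHomogeneousComponent_isWeightedHomogeneous _ _, ?_, ?_⟩
  · intro h
    apply hVc
    rw [hV, gr_coeff]
    exact Ideal.Quotient.eq_zero_iff_mem.2 h
  · rw [← Ideal.Quotient.eq_zero_iff_mem, map_sum, ← htop]
    refine Finset.sum_congr rfl fun k _ => ?_
    rw [map_mul, map_mul, map_pow, map_pow, hU, hV, gr_coeff, gr_coeff]

end

/-- **JOB PT.** -/
theorem pt : S_PT := by
  intro κ _ hpac ι _ w hw P hP hG hX hpt
  obtain ⟨i, hi⟩ := hX
  have hex : ∃ z : FractionRing (MvPolynomial ι κ ⧸ P), IsAlgebraic κ z ∧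
      z ∉ (algebraMap κ (FractionRing (MvPolynomial ι κ ⧸ P))).range := by
    by_contra hcon
    push Not at hcon
    obtain ⟨x, hx, hxi⟩ := hpac ι P (X i) hi hcon
    rw [eval_X] at hxi
    obtain ⟨h, hh, hne⟩ := hpt x (fun h0 => hxi (by rw [h0]; rfl))
    exact hne (hx h hh)
  obtain ⟨z, hz, hzr⟩ := hex
  have hint : IsIntegral κ z := hz.isIntegral
  refine ⟨minpoly κ z, minpoly.irreducible hint, fun h => hzr (minpoly.natDegree_eq_one_iff.1 h), ?_⟩
  obtain ⟨a, b, hb, hab⟩ := IsFractionRing.div_surjective (MvPolynomial ι κ ⧸ P) z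
  obtain ⟨u, rfl⟩ := Ideal.Quotient.mk_surjective a
  obtain ⟨v, rfl⟩ := Ideal.Quotient.mk_surjective b
  have hv0 : Ideal.Quotient.mk P v ≠ 0 := nonZeroDivisors.ne_zero hb
  have hv : v ∉ P := fun h => hv0 (Ideal.Quotient.eq_zero_iff_mem.2 h)
  refine leading w P hP hG (minpoly.monic hint) (minpoly.natDegree_pos hint).ne' (u := u) (v := v)
    hv ?_
  rw [← Ideal.Quotient.eq_zero_iff_mem]
  apply IsFractionRing.injective (MvPolynomial ι κ ⧸ P) (FractionRing (MvPolynomial ι κ ⧸ P))
  rw [map_zero, map_sum, map_sum]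
  set B := algebraMap (MvPolynomial ι κ ⧸ P) (FractionRing (MvPolynomial ι κ ⧸ P))
    (Ideal.Quotient.mk P v) with hB
  set A := algebraMap (MvPolynomial ι κ ⧸ P) (FractionRing (MvPolynomial ι κ ⧸ P))
    (Ideal.Quotient.mk P u) with hA
  have hB0 : B ≠ 0 := by
    intro h
    exact hv0 ((IsFractionRing.injective (MvPolynomial ι κ ⧸ P)
      (FractionRing (MvPolynomial ι κ ⧸ P))) (by rw [map_zero]; exact h))
  have hAz : A = z * B := by
    rw [← hab, div_mul_cancel₀ _ hB0]
  have h1 := minpoly.aeval κ z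
  rw [Polynomial.aeval_eq_sum_range] at h1
  have h2 : ∀ k ∈ Finset.range ((minpoly κ z).natDegree + 1),
      algebraMap (MvPolynomial ι κ ⧸ P) (FractionRing (MvPolynomial ι κ ⧸ P))
        (Ideal.Quotient.mk P (C ((minpoly κ z).coeff k) * u ^ k *
          v ^ ((minpoly κ z).natDegree - k))) =
      ((minpoly κ z).coeff k • z ^ k) * B ^ (minpoly κ z).natDegree := by
    intro k hk
    have hk' : k ≤ (minpoly κ z).natDegree := by
      have := Finset.mem_range.1 hk
      omega
    rw [map_mul, map_mul, map_mul, map_mul, map_pow, map_pow, map_pow, map_pow, ← hA, ← hB, hAz,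
      mul_pow, Algebra.smul_def]
    have h3 : algebraMap (MvPolynomial ι κ ⧸ P) (FractionRing (MvPolynomial ι κ ⧸ P))
        (Ideal.Quotient.mk P (C ((minpoly κ z).coeff k))) =
        algebraMap κ (FractionRing (MvPolynomial ι κ ⧸ P)) ((minpoly κ z).coeff k) := rfl
    rw [h3]
    have h4 : B ^ (minpoly κ z).natDegree = B ^ k * B ^ ((minpoly κ z).natDegree - k) := by
      rw [← pow_add]
      congr 1
      omega
    rw [h4]
    ring
  rw [Finset.sum_congr rfl h2, ← Finset.sum_mul, h1, zero_mul]

end Q34.TL
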