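import Pool.Agent.Q34.TL.Gwi

/-!
# Project TL, job WIT: solutions modulo all powers of `p`
-/

set_option autoImplicit false

namespace Q34.TL

open MvPolynomial
open Pool.Agent.Q49.TL (S_GWI S_KAP S_TK S_WIT tau FinF Tsen)

/-- substitution of weighted forms -/
theorem wh_subst {A σ σ' : Type} [Field A] {W : σ → ℕ} {W' : σ' → ℕ} {e : ℕ}
    {f : MvPolynomial σ A} (hf : IsWeightedHomogeneous W f e) (g : σ → MvPolynomial σ' A)
    (hg : ∀ s, IsWeightedHomogeneous W' (g s) (W s)) :
    IsWeightedHomogeneous W' (aeval g f) e := by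
  have h1 : aeval g f = ∑ s ∈ f.support, C (coeff s f) * ∏ i ∈ s.support, g i ^ s i := by
    conv_lhs => rw [f.as_sum]
    rw [map_sum]
    exact Finset.sum_congr rfl fun s _ => aeval_monomial _ _ _
  rw [h1]
  refine IsWeightedHomogeneous.sum _ _ _ fun s hs => ?_
  refine IsWeightedHomogeneous.C_mul ?_ _
  have h2 : Finsupp.weight W s = e := hf (mem_support_iff.1 hs)
  rw [← h2, Finsupp.weight_apply, Finsupp.sum]
  exact IsWeightedHomogeneous.prod _ _ _ fun i _ => (hg i).pow _

theorem fact_pow {p ℓ : ℕ} [hp : Fact p.Prime] (hne : p ≠ ℓ) {a : ℕ}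
    (ha : 0 < a) (m : ℕ) : (a * p ^ m).factorization ℓ = a.factorization ℓ := by
  rw [Nat.factorization_mul ha.ne' (pow_pos hp.out.pos _).ne', Finsupp.add_apply,
    Nat.Prime.factorization_pow hp.out, Finsupp.single_apply, if_neg hne, add_zero]

theorem dvd_iff_coeff {p : ℕ} [Fact p.Prime] {K : Type} [Field K] [CharP K p] [PerfectRing K p]
    (x : WittVector p K) (n : ℕ) :
    (p : WittVector p K) ^ n ∣ x ↔ ∀ m < n, x.coeff m = 0 := by
  rw [← Ideal.mem_span_singleton]
  exact WittVector.mem_span_p_pow_iff_le_coeff_eq_zero x n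

/-- the normalisation -/
theorem normalise {p : ℕ} [hp : Fact p.Prime] {K : Type} [Field K] [Finite K] [Algebra (ZMod p) K]
    {ι κ : Type} (w : ι → ℕ) (e : κ → ℕ) (f : κ → MvPolynomial ι ℤ_[p])
    (hf : ∀ j, IsWeightedHomogeneous w (f j) (e j)) (N c : ℕ) (x : ι → WittVector p K)
    (hx : ∃ i, ¬ (p : WittVector p K) ^ (w i * N) ∣ x i)
    (hy : ∀ j, (p : WittVector p K) ^ (e j * N + c) ∣ eval₂ (tau p K) x (f j)) :
    ∃ x' : ι → WittVector p K, (∃ i, ¬ (p : WittVector p K) ^ w i ∣ x' i) ∧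
      ∀ j, (p : WittVector p K) ^ c ∣ eval₂ (tau p K) x' (f j) := by
  classical
  have : CharP K p := charP_of_injective_algebraMap (algebraMap (ZMod p) K).injective p
  have hp0 : (p : WittVector p K) ≠ 0 := WittVector.p_nonzero p K
  have hex : ∃ k : ℕ, ¬ ∀ i, (p : WittVector p K) ^ (w i * k) ∣ x i := by
    obtain ⟨i, hi⟩ := hx
    exact ⟨N, fun h => hi (h i)⟩
  have h1 := Nat.find_spec hex
  have hN : Nat.find hex ≤ N := Nat.find_min' hex (by
    obtain ⟨i, hi⟩ := hx
    exact fun h => hi (h i))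
  have h0 : Nat.find hex ≠ 0 := by
    intro h
    rw [h] at h1
    exact h1 fun i => by
      rw [mul_zero, pow_zero]
      exact one_dvd _
  obtain ⟨k, hk⟩ := Nat.exists_eq_succ_of_ne_zero h0
  have h2 : ∀ i, (p : WittVector p K) ^ (w i * k) ∣ x i := by
    by_contra hcon
    have := Nat.find_min' hex hcon
    omega
  choose x' hx' using h2
  rw [hk] at h1
  push Not at h1
  obtain ⟨i, hi⟩ := h1
  refine ⟨x', ⟨i, fun h => hi ?_⟩, fun j => ?_⟩
  · rw [hx' i, Nat.mul_succ, pow_add]
    exact mul_dvd_mul_left _ h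
  · have h3 : eval₂ (tau p K) x (f j) =
        ((p : WittVector p K) ^ k) ^ e j * eval₂ (tau p K) x' (f j) := by
      rw [← wh_scale _ (hf j)]
      congr 1
      funext i
      rw [hx' i, ← pow_mul, mul_comm k]
    have h4 := hy j
    rw [h3, ← pow_mul] at h4
    have h5 : e j * N + c = k * e j + (e j * (N - k) + c) := by
      have h6 : N = k + (N - k) := by omega
      conv_lhs => rw [h6]
      ring
    rw [h5, pow_add] at h4
    have h7 := (mul_dvd_mul_iff_left (pow_ne_zero _ hp0)).1 h4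
    exact (pow_dvd_pow _ (Nat.le_add_left _ _)).trans h7

/-- **JOB WIT.** -/
theorem wit (h1 : S_GWI) (h2 : S_KAP) (h3 : S_TK) : S_WIT := by
  classical
  intro p ℓ hp hℓ hne ι κ _ _ w e f hw he hf hcost c
  obtain ⟨kk, _, _, halg, hirr, hfin⟩ := h2 p ℓ
  have hT := h3 p ℓ kk halg hirr
  have hG := fun j => h1 p kk ι w (e j) (f j) (hf j)
  choose G hGh hGe using hG
  -- the length of the vectors
  set N : ℕ := (∑ j, c * ℓ ^ (e j).factorization ℓ) + 1 with hN
  have hcostN : ∑ j, (e j * N + c) * ℓ ^ (e j).factorization ℓ <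
      ∑ i, (w i * N) * ℓ ^ (w i).factorization ℓ := by
    have e1 : ∑ j, (e j * N + c) * ℓ ^ (e j).factorization ℓ =
        N * (∑ j, e j * ℓ ^ (e j).factorization ℓ) + ∑ j, c * ℓ ^ (e j).factorization ℓ := by
      rw [Finset.mul_sum, ← Finset.sum_add_distrib]
      exact Finset.sum_congr rfl fun j _ => by ring
    have e2 : ∑ i, (w i * N) * ℓ ^ (w i).factorization ℓ =
        N * ∑ i, w i * ℓ ^ (w i).factorization ℓ := by
      rw [Finset.mul_sum]
      exact Finset.sum_congr rfl fun j _ => by ring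
    rw [e1, e2]
    have h4 : N * (∑ j, e j * ℓ ^ (e j).factorization ℓ + 1) ≤
        N * ∑ i, w i * ℓ ^ (w i).factorization ℓ := Nat.mul_le_mul_left _ hcost
    rw [mul_add, mul_one] at h4
    omega
  -- the system
  let I : Type := Σ i : ι, Fin (w i * N)
  let J : Type := Σ j : κ, Fin (e j * N + c)
  let g : ι × ℕ → MvPolynomial I kk := fun s =>
    if h : s.2 < w s.1 * N then X (⟨s.1, ⟨s.2, h⟩⟩ : I) else 0
  obtain ⟨X0, hX0, hsol⟩ := hT I J (fun s => w s.1 * p ^ (s.2 : ℕ)) (fun s => e s.1 * p ^ (s.2 : ℕ))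
    (fun s => aeval g (G s.1 s.2)) (fun s => Nat.mul_pos (hw _) (pow_pos hp.out.pos _))
    (fun s => Nat.mul_pos (he _) (pow_pos hp.out.pos _))
    (fun s => by
      refine wh_subst (hGh s.1 s.2) g fun t => ?_
      show IsWeightedHomogeneous _ (if h : t.2 < w t.1 * N then X (⟨t.1, ⟨t.2, h⟩⟩ : I) else 0) _
      split_ifs with h
      · exact isWeightedHomogeneous_X kk _ (⟨t.1, ⟨t.2, h⟩⟩ : I)
      · exact isWeightedHomogeneous_zero _ _ _)
    (by
      have e1 : ∑ s : J, ℓ ^ (e s.1 * p ^ (s.2 : ℕ)).factorization ℓ =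
          ∑ j, (e j * N + c) * ℓ ^ (e j).factorization ℓ := by
        rw [Fintype.sum_sigma]
        refine Finset.sum_congr rfl fun j _ => ?_
        have e3 : ∀ s : Fin (e j * N + c), ℓ ^ (e j * p ^ (s : ℕ)).factorization ℓ =
            ℓ ^ (e j).factorization ℓ := fun s => by rw [fact_pow hne (he j)]
        show ∑ s : Fin (e j * N + c), ℓ ^ (e j * p ^ (s : ℕ)).factorization ℓ = _
        rw [Finset.sum_congr rfl fun s _ => e3 s, Finset.sum_const, Finset.card_univ,
          Fintype.card_fin, smul_eq_mul]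
      have e2 : ∑ s : I, ℓ ^ (w s.1 * p ^ (s.2 : ℕ)).factorization ℓ =
          ∑ i, (w i * N) * ℓ ^ (w i).factorization ℓ := by
        rw [Fintype.sum_sigma]
        refine Finset.sum_congr rfl fun i _ => ?_
        have e3 : ∀ s : Fin (w i * N), ℓ ^ (w i * p ^ (s : ℕ)).factorization ℓ =
            ℓ ^ (w i).factorization ℓ := fun s => by rw [fact_pow hne (hw i)]
        show ∑ s : Fin (w i * N), ℓ ^ (w i * p ^ (s : ℕ)).factorization ℓ = _
        rw [Finset.sum_congr rfl fun s _ => e3 s, Finset.sum_const, Finset.card_univ,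
          Fintype.card_fin, smul_eq_mul]
      rw [e1, e2]
      exact hcostN)
  -- the finite field
  obtain ⟨K, hK, hKfin, hKdeg⟩ := hfin (Finset.univ.image X0)
  have hmem : ∀ s, X0 s ∈ K := fun s => hK _ (Finset.mem_image_of_mem _ (Finset.mem_univ s))
  have hKf : Finite K := Module.finite_of_finite (ZMod p)
  have hch : CharP K p := charP_of_injective_algebraMap (algebraMap (ZMod p) K).injective p
  let x : ι → WittVector p K := fun i => WittVector.mk p fun s =>
    if h : s < w i * N then ⟨X0 ⟨i, ⟨s, h⟩⟩, hmem _⟩ else 0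
  let inc : K →+* kk := algebraMap K kk
  have hinc : Function.Injective inc := inc.injective
  have hxc : ∀ i s, inc ((x i).coeff s) = eval X0 (g (i, s)) := by
    intro i s
    show inc (if h : s < w i * N then ⟨X0 ⟨i, ⟨s, h⟩⟩, hmem _⟩ else 0) =
      eval X0 (if h : s < w i * N then X (⟨i, ⟨s, h⟩⟩ : I) else 0)
    split_ifs with h
    · rw [eval_X]
      rfl
    · rw [map_zero, map_zero]
  have hzero : ∀ j, ∀ m < e j * N + c, (eval₂ (tau p K) x (f j)).coeff m = 0 := by
    intro j m hm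
    apply hinc
    rw [map_zero]
    have e1 : inc ((eval₂ (tau p K) x (f j)).coeff m) =
        (WittVector.map inc (eval₂ (tau p K) x (f j))).coeff m := rfl
    have e2 : (WittVector.map inc).comp (tau p K) = tau p kk := by
      refine RingHom.ext fun a => WittVector.ext fun n => ?_
      show inc (algebraMap (ZMod p) K _) = algebraMap (ZMod p) kk _
      exact (IsScalarTower.algebraMap_apply (ZMod p) K kk _).symm
    rw [e1, eval₂_comp_left, e2, hGe]
    have e3 : (fun s : ι × ℕ => (((WittVector.map inc) ∘ x) s.1).coeff s.2) =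
        fun s => eval X0 (g s) := funext fun s => hxc s.1 s.2
    rw [e3]
    have e4 := hsol ⟨j, ⟨m, hm⟩⟩
    rw [← e4]
    show eval (fun s => eval X0 (g s)) (G j m) = eval X0 (aeval g (G j m))
    have e5 : eval X0 (aeval g (G j m)) = aeval X0 (aeval g (G j m)) := rfl
    rw [e5, comp_aeval_apply]
    rfl
  have hnz : ∃ i, ¬ (p : WittVector p K) ^ (w i * N) ∣ x i := by
    by_contra hcon
    push Not at hcon
    apply hX0
    funext s
    obtain ⟨i, s, hs⟩ := s
    have e1 := (dvd_iff_coeff (x i) (w i * N)).1 (hcon i) s hs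
    have e2 : (x i).coeff s = ⟨X0 ⟨i, ⟨s, hs⟩⟩, hmem _⟩ := dif_pos hs
    rw [e2] at e1
    exact congrArg Subtype.val e1
  obtain ⟨x', hx', hy'⟩ := normalise (K := K) w e f hf N c x hnz fun j =>
    (dvd_iff_coeff _ _).2 (hzero j)
  exact ⟨⟨K, hKdeg⟩, x', hx', hy'⟩

end Q34.TL
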